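import Mathlib

set_option autoImplicit false

namespace Pool.Agent.Results.MP_ec348e_an.Vague

open Filter Topology Finset MonoidAlgebra ENNReal

/-- The discrete group `ℤ × S₃`. -/
abbrev G := Multiplicative ℤ × Equiv.Perm (Fin 3)

/-- The Cesàro mean `(a + a ^ 2 + ⋯ + a ^ n) / n` in a complex algebra. -/
noncomputable def cesaro {A : Type*} [Ring A] [Algebra ℂ A] (a : A) (n : ℕ) : A :=
  (n : ℂ)⁻¹ • ∑ k ∈ range n, a ^ (k + 1)

/-- The integral of `f` against the finitely supported complex measure `μ`. -/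
noncomputable def integ (μ : MonoidAlgebra ℂ G) (f : G → ℂ) : ℂ := μ.coeff.sum fun g a => a * f g

/-- `T` is mean ergodic: its Cesàro means converge strongly to a bounded operator. -/
def MeanErgodic {X : Type*} [NormedAddCommGroup X] [NormedSpace ℂ X] (T : X →L[ℂ] X) : Prop :=
  ∃ P : X →L[ℂ] X, ∀ f, Tendsto (fun n => cesaro T n f) atTop (𝓝 (P f))

/-- The space `ℓ^p(G)`. -/
def L (p : ℝ≥0∞) : Type := lp (fun _ : G => ℂ) p

noncomputable instance (p : ℝ≥0∞) [Fact (1 ≤ p)] : NormedAddCommGroup (L p) :=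
  lp.normedAddCommGroup (E := fun _ : G => ℂ) (p := p)

noncomputable instance (p : ℝ≥0∞) [Fact (1 ≤ p)] : NormedSpace ℂ (L p) :=
  lp.instNormedSpace (E := fun _ : G => ℂ) (p := p)

/-- The value of `f ∈ ℓ^p(G)` at a point. -/
def L.val {p : ℝ≥0∞} (f : L p) : G → ℂ := Subtype.val f

/-- `T` is the convolution operator of `μ` on `ℓ^p(G)`. -/
def IsConv {p : ℝ≥0∞} [Fact (1 ≤ p)] (μ : MonoidAlgebra ℂ G) (T : L p →L[ℂ] L p) : Prop :=
  ∀ f x, (T f).val x = integ μ fun y => f.val (y⁻¹ * x)

section shift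
variable (p : ℝ≥0∞) [Fact (1 ≤ p)] (hp : p ≠ ∞)
include hp

theorem ppos : 0 < p.toReal :=
  ENNReal.toReal_pos (zero_lt_one.trans_le (Fact.out : 1 ≤ p)).ne' hp

theorem mem_shift (y : G) (f : lp (fun _ : G => ℂ) p) : Memℓp (fun x => f (y⁻¹ * x)) p := by
  rw [memℓp_gen_iff (ppos p hp)]
  exact (Equiv.mulLeft y⁻¹).summable_iff.2 ((memℓp_gen_iff (ppos p hp)).1 f.2)

/-- Left translation on `ℓ^p`. -/
noncomputable def shift (y : G) : lp (fun _ : G => ℂ) p →L[ℂ] lp (fun _ : G => ℂ) p :=
  LinearMap.mkContinuous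
    { toFun := fun f => ⟨fun x => f (y⁻¹ * x), mem_shift p hp y f⟩
      map_add' := fun _ _ => rfl
      map_smul' := fun _ _ => rfl } 1 fun f => by
    rw [one_mul, lp.norm_eq_tsum_rpow (ppos p hp), lp.norm_eq_tsum_rpow (ppos p hp)]
    exact le_of_eq (congrArg (· ^ (1 / p.toReal))
      ((Equiv.mulLeft y⁻¹).tsum_eq fun x => ‖f x‖ ^ p.toReal))

/-- The left regular representation. -/
noncomputable def rep : G →* (lp (fun _ : G => ℂ) p →L[ℂ] lp (fun _ : G => ℂ) p) where
  toFun := shift p hp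
  map_one' := by
    ext f x
    change f (1⁻¹ * x) = f x
    simp
  map_mul' a b := by
    ext f x
    change f ((a * b)⁻¹ * x) = f (b⁻¹ * (a⁻¹ * x))
    simp [mul_assoc]

theorem lift_apply_apply (ν : MonoidAlgebra ℂ G) (f : lp (fun _ : G => ℂ) p) (x : G) :
    (MonoidAlgebra.lift ℂ _ G (rep p hp) ν f) x = integ ν fun y => f (y⁻¹ * x) := by
  rw [MonoidAlgebra.lift_apply, integ, Finsupp.sum, Finsupp.sum, _root_.sum_apply,
    lp.coeFn_sum, Finset.sum_apply]
  rfl

end shift

/-- The pairing as a linear functional. -/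
noncomputable def pair (f : G → ℂ) : MonoidAlgebra ℂ G →ₗ[ℂ] ℂ :=
  Finsupp.linearCombination ℂ f ∘ₗ (coeffLinearEquiv ℂ).toLinearMap

theorem pair_eq (f : G → ℂ) (ν : MonoidAlgebra ℂ G) : pair f ν = integ ν f := rfl

theorem pair_single (f : G → ℂ) (g : G) : pair f (single g 1) = f g := by
  simp [pair]

/-- The generator of `ℤ`. -/
def z : G := (Multiplicative.ofAdd 1, 1)
/-- A transposition. -/
def s : G := (1, Equiv.swap 0 1)
/-- Another transposition. -/
def t : G := (1, Equiv.swap 1 2)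

/-- The central unitary. -/
noncomputable def Z : MonoidAlgebra ℂ G := single z 1
/-- The nilpotent element. -/
noncomputable def N : MonoidAlgebra ℂ G := (1 - single s 1) * single t 1 * (1 + single s 1)
/-- The measure. -/
noncomputable def mu : MonoidAlgebra ℂ G := Z + (1 - Z) * N

theorem NN : N * N = 0 := by
  have h : (single s 1 : MonoidAlgebra ℂ G) * single s 1 = 1 := by
    rw [single_mul_single, show s * s = 1 by decide, one_mul]; rfl
  unfold N
  linear_combination (norm := noncomm_ring)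
    (-1 : ℤ) • ((1 - single s 1) * single t 1 * (h - h + h) * single t 1 * (1 + single s 1))

theorem ZN : Commute Z N := by
  have h : ∀ g : G, Commute Z (single g 1) := fun g => by
    unfold Z Commute SemiconjBy
    rw [single_mul_single, single_mul_single]
    congr 1
    exact Prod.ext (mul_comm _ _) (by simp [z])
  exact (((Commute.one_right _).sub_right (h s)).mul_right (h t)).mul_right
    ((Commute.one_right _).add_right (h s))

theorem mu_pow (k : ℕ) : mu ^ (k + 1) = Z ^ (k + 1) + ((k : ℂ) + 1) • (Z ^ k * (1 - Z) * N) := by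
  induction k with
  | zero => simp [mu]
  | succ k ih =>
    have h1 : N * Z = Z * N := ZN.symm
    have h2 : N * ((1 - Z) * N) = 0 := by
      rw [← mul_assoc, mul_sub, mul_one, h1, sub_mul, mul_assoc, NN]; simp
    rw [pow_succ, ih, mu, add_mul, mul_add, mul_add, smul_mul_assoc, smul_mul_assoc,
      mul_assoc _ N ((1 - Z) * N), h2, mul_zero, mul_assoc _ N Z, h1]
    have h3 : Z ^ k * (1 - Z) * (Z * N) = Z ^ (k + 1) * (1 - Z) * N := by noncomm_ring
    rw [h3, ← mul_assoc, ← pow_succ]
    push_cast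
    module

theorem sum_pow (n : ℕ) : ∑ k ∈ range n, mu ^ (k + 1) =
    ∑ k ∈ range n, (Z ^ (k + 1) + Z ^ k * N) - (n : ℂ) • (Z ^ n * N) := by
  induction n with
  | zero => simp
  | succ n ih =>
    rw [sum_range_succ, ih, sum_range_succ, mu_pow, mul_sub, mul_one, sub_mul, ← pow_succ]
    push_cast
    module

theorem pair_ZN (f : G → ℂ) (k : ℕ) : pair f (Z ^ k * N) =
    f (z ^ k * t) + f (z ^ k * (t * s)) - f (z ^ k * (s * t)) - f (z ^ k * (s * t * s)) := by
  have : Z ^ k * N = single (z ^ k * t) 1 + single (z ^ k * (t * s)) 1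
      - single (z ^ k * (s * t)) 1 - single (z ^ k * (s * t * s)) 1 := by
    simp only [Z, N, single_pow, one_pow, mul_sub, sub_mul, mul_add, mul_one, one_mul,
      single_mul_single, mul_assoc]
    abel
  rw [this, map_sub, map_sub, map_add, pair_single, pair_single, pair_single, pair_single]

theorem pair_ces (f : G → ℂ) (n : ℕ) (hn : n ≠ 0) : pair f (cesaro mu n) =
    (n : ℝ)⁻¹ • ∑ k ∈ range n, (f (z ^ k * z) + pair f (Z ^ k * N)) - pair f (Z ^ n * N) := by
  have hn' : (n : ℂ) ≠ 0 := by exact_mod_cast hn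
  rw [cesaro, sum_pow, map_smul, map_sub, map_smul, map_sum, smul_sub, smul_smul,
    inv_mul_cancel₀ hn', one_smul]
  congr 1
  rw [Complex.real_smul, smul_eq_mul]
  push_cast
  congr 1
  refine sum_congr rfl fun k _ => ?_
  rw [map_add, Z, single_pow, one_pow, pair_single, pow_succ]

theorem zpow (k : ℕ) : z ^ k = (Multiplicative.ofAdd (k : ℤ), 1) := by
  rw [z, Prod.pow_mk, one_pow, ← ofAdd_nsmul]; simp

theorem vague (f : G → ℂ) (hf : Tendsto f cofinite (𝓝 0)) :
    Tendsto (fun n => integ (cesaro mu n) f) atTop (𝓝 0) := by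
  have h1 : ∀ g : G, Tendsto (fun k : ℕ => f (z ^ k * g)) atTop (𝓝 0) := fun g => by
    refine hf.comp ?_
    rw [← Nat.cofinite_eq_atTop]
    refine Function.Injective.tendsto_cofinite fun a b h => ?_
    have := congrArg Prod.fst (mul_right_cancel h)
    simpa [zpow] using this
  have h2 : Tendsto (fun k : ℕ => pair f (Z ^ k * N)) atTop (𝓝 0) := by
    simp only [pair_ZN]
    simpa using (((h1 t).add (h1 (t * s))).sub (h1 (s * t))).sub (h1 (s * t * s))
  have h3 := ((h1 z).add h2).cesaro_smul.sub h2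
  simp only [add_zero, sub_zero] at h3
  refine h3.congr' ?_
  filter_upwards [eventually_ne_atTop 0] with n hn
  rw [← pair_eq, pair_ces f n hn]

theorem result : ∃ μ : MonoidAlgebra ℂ G,
    (∀ f : G → ℂ, Tendsto f cofinite (𝓝 0) →
      Tendsto (fun n => integ (cesaro μ n) f) atTop (𝓝 0)) ∧
    ∀ (p : ℝ≥0∞) [Fact (1 ≤ p)], p ≠ ∞ →
      ∃ T, IsConv (p := p) μ T ∧ ¬ MeanErgodic T := by
  classical
  refine ⟨mu, vague, fun p _ hp => ⟨MonoidAlgebra.lift ℂ _ G (rep p hp) mu,
    lift_apply_apply p hp mu, ?_⟩⟩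
  change ¬ MeanErgodic (MonoidAlgebra.lift ℂ _ G (rep p hp) mu)
  rintro ⟨P, hP⟩
  set e : lp (fun _ : G => ℂ) p := lp.single p 1 1
  have key : ∀ n x, (cesaro (MonoidAlgebra.lift ℂ _ G (rep p hp) mu) n e) x =
      integ (cesaro mu n) (Pi.single x 1) := fun n x => by
    have : cesaro (MonoidAlgebra.lift ℂ _ G (rep p hp) mu) n =
        MonoidAlgebra.lift ℂ _ G (rep p hp) (cesaro mu n) := by
      simp [cesaro]
    rw [this, lift_apply_apply]
    congr 1
    funext y
    simp only [e, lp.single_apply, Pi.single_apply, inv_mul_eq_one]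
  have h0 : P e = 0 := by
    ext x
    have h1 : Tendsto (fun n => (cesaro (MonoidAlgebra.lift ℂ _ G (rep p hp) mu) n e) x) atTop
        (𝓝 (P e x)) := ((lp.evalCLM ℂ (fun _ : G => ℂ) p x).continuous.tendsto _).comp (hP e)
    simp only [key] at h1
    refine tendsto_nhds_unique h1 (vague _ ?_)
    refine tendsto_const_nhds.congr' ?_
    filter_upwards [eventually_cofinite_ne x] with y hy
    simp [hy]
  have h1 := (hP e).norm
  rw [h0, norm_zero] at h1
  obtain ⟨n, hn1, hn⟩ := ((h1.eventually (gt_mem_nhds one_pos)).and (eventually_ne_atTop 0)).exists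
  refine absurd ((lp.norm_apply_le_norm (zero_lt_one.trans_le (Fact.out : 1 ≤ p)).ne' _
    (z ^ n * t)).trans_lt hn1) ?_
  rw [key, ← pair_eq, pair_ces _ n hn, sum_eq_zero, pair_ZN]
  · simp [show t * s ≠ t by decide, show s * t ≠ t by decide, show s * t * s ≠ t by decide]
  · intro k hk
    have hne : ∀ g : G, g.1 = 1 → z ^ k * g ≠ z ^ n * t := fun g hg h => by
      have := congrArg Prod.fst h
      simp [zpow, hg, t] at this
      exact (mem_range.1 hk).ne this
    have hz : z ^ k * z ≠ z ^ n * t := fun h => by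
      have := congrArg Prod.snd h
      simp only [z, t, Prod.snd_mul, Prod.pow_snd, one_pow, one_mul] at this
      exact absurd this (by decide)
    rw [pair_ZN, Pi.single_eq_of_ne hz, Pi.single_eq_of_ne (hne t rfl),
      Pi.single_eq_of_ne (hne (t * s) rfl), Pi.single_eq_of_ne (hne (s * t) rfl),
      Pi.single_eq_of_ne (hne (s * t * s) rfl)]
    simp

end Pool.Agent.Results.MP_ec348e_an.Vague
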